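import Pool.Agent.Helper70.MM.Goals3

/-!
# The slope at the vertices is small for large cubes
-/

set_option autoImplicit false

namespace Pool.Agent.Helper79.CU

open Pool.Agent.Helper70.MM

lemma choose_le (N m : ℕ) (hN : 1 ≤ N) (hm : 1 ≤ m) :
    ((N.choose m : ℕ) : ℝ) ≤ Real.exp (2 * Real.sqrt (N * m) - m) := by
  set x := Real.sqrt (N * m) with hx
  have hN' : (0 : ℝ) < N := by exact_mod_cast hN
  have hm' : (0 : ℝ) < m := by exact_mod_cast hm
  have hx0 : 0 < x := Real.sqrt_pos.2 (mul_pos hN' hm')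
  have hxx : x * x = N * m := Real.mul_self_sqrt (mul_pos hN' hm').le
  have h1 : ((N.choose m : ℕ) : ℝ) ≤ (N : ℝ) ^ m / (m.factorial : ℝ) :=
    Nat.choose_le_pow_div m N
  have h2 : x ^ m / (m.factorial : ℝ) ≤ Real.exp x := Real.pow_div_factorial_le_exp x hx0.le m
  have h3 : (N : ℝ) / x ≤ Real.exp (N / x - 1) := by
    have := Real.add_one_le_exp ((N : ℝ) / x - 1)
    linarith
  have h4 : ((N : ℝ) / x) ^ m ≤ Real.exp (x - m) := by
    calc ((N : ℝ) / x) ^ m ≤ (Real.exp (N / x - 1)) ^ m :=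
          pow_le_pow_left₀ (div_pos hN' hx0).le h3 m
      _ = Real.exp (m * (N / x - 1)) := by rw [← Real.exp_nat_mul]
      _ = Real.exp (x - m) := by
          congr 1
          have : (m : ℝ) * (N / x) = x := by
            field_simp
            nlinarith [hxx]
          linarith
  have hf : (0 : ℝ) < m.factorial := by exact_mod_cast m.factorial_pos
  have h5 : (N : ℝ) ^ m / (m.factorial : ℝ) = x ^ m / (m.factorial : ℝ) * ((N : ℝ) / x) ^ m := by
    rw [div_pow]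
    have : x ^ m ≠ 0 := pow_ne_zero _ hx0.ne'
    field_simp
  calc ((N.choose m : ℕ) : ℝ) ≤ (N : ℝ) ^ m / (m.factorial : ℝ) := h1
    _ = x ^ m / (m.factorial : ℝ) * ((N : ℝ) / x) ^ m := h5
    _ ≤ Real.exp x * Real.exp (x - m) :=
        mul_le_mul h2 h4 (pow_nonneg (div_pos hN' hx0).le m) (Real.exp_pos _).le
    _ = Real.exp (2 * x - m) := by rw [← Real.exp_add]; congr 1; ring

lemma exp_neg_nat (m : ℕ) : Real.exp (-(m : ℝ)) ≤ (10 / 27 : ℝ) ^ m := by
  have h1 : Real.exp (-1) ≤ 10 / 27 := by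
    rw [Real.exp_neg, inv_le_comm₀ (Real.exp_pos _) (by norm_num)]
    have := Real.exp_one_gt_d9
    norm_num at this ⊢
    linarith
  have h2 : Real.exp (-(m : ℝ)) = (Real.exp (-1)) ^ m := by
    rw [← Real.exp_nat_mul]; congr 1; ring
  rw [h2]
  exact pow_le_pow_left₀ (Real.exp_pos _).le h1 m

lemma term_le (n m : ℕ) (hn : 2 ≤ n) (hm : 1 ≤ m) (l : ℝ) (hl : 2 * Real.sqrt n ≤ l) :
    ((n - 1).choose m : ℝ) * (Real.exp (-(Real.sqrt (m + 1) * l)) / Real.sqrt (m + 1)) ≤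
      (10 / 27 : ℝ) ^ m := by
  have hs1 : (1 : ℝ) ≤ Real.sqrt (m + 1) := by
    rw [Real.one_le_sqrt]
    have : (0 : ℝ) ≤ m := Nat.cast_nonneg m
    linarith
  have h1 := choose_le (n - 1) m (by omega) hm
  have h2 : Real.sqrt ((n - 1 : ℕ) * m) ≤ Real.sqrt n * Real.sqrt (m + 1) := by
    rw [← Real.sqrt_mul (Nat.cast_nonneg n)]
    apply Real.sqrt_le_sqrt
    have h3 : (((n - 1 : ℕ) : ℝ)) ≤ n := by exact_mod_cast Nat.sub_le n 1
    have h4 : (0 : ℝ) ≤ m := Nat.cast_nonneg m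
    have h5 : (0 : ℝ) ≤ n := Nat.cast_nonneg n
    nlinarith
  have h3 : Real.exp (-(Real.sqrt (m + 1) * l)) / Real.sqrt (m + 1) ≤
      Real.exp (-(2 * (Real.sqrt n * Real.sqrt (m + 1)))) := by
    calc Real.exp (-(Real.sqrt (m + 1) * l)) / Real.sqrt (m + 1)
        ≤ Real.exp (-(Real.sqrt (m + 1) * l)) := div_le_self (Real.exp_pos _).le hs1
      _ ≤ _ := by
          apply Real.exp_le_exp.2
          nlinarith
  calc ((n - 1).choose m : ℝ) * (Real.exp (-(Real.sqrt (m + 1) * l)) / Real.sqrt (m + 1))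
      ≤ Real.exp (2 * Real.sqrt ((n - 1 : ℕ) * m) - m) *
          Real.exp (-(2 * (Real.sqrt n * Real.sqrt (m + 1)))) :=
        mul_le_mul h1 h3 (by positivity) (Real.exp_pos _).le
    _ = Real.exp (2 * Real.sqrt ((n - 1 : ℕ) * m) - m +
          -(2 * (Real.sqrt n * Real.sqrt (m + 1)))) := by rw [← Real.exp_add]
    _ ≤ Real.exp (-(m : ℝ)) := by
        apply Real.exp_le_exp.2
        linarith
    _ ≤ (10 / 27 : ℝ) ^ m := exp_neg_nat m

lemma geom (N : ℕ) : ∑ m ∈ Finset.range N, (10 / 27 : ℝ) ^ (m + 1) =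
    10 / 17 * (1 - (10 / 27) ^ N) := by
  induction N with
  | zero => simp
  | succ N ih => rw [Finset.sum_range_succ, ih]; ring

/-- **ORDER.** -/
theorem order (n : ℕ) (l : ℝ) (hn : 2 ≤ n) (hl : 2 * Real.sqrt n ≤ l) : sl n l < 1 := by
  obtain ⟨N, rfl⟩ : ∃ N, n = N + 1 := ⟨n - 1, by omega⟩
  unfold sl
  rw [Finset.sum_range_succ']
  have h1 : ∑ m ∈ Finset.range N, ((N + 1 - 1).choose (m + 1) : ℝ) *
      (Real.exp (-(Real.sqrt (((m + 1 : ℕ) : ℝ) + 1) * l)) / Real.sqrt (((m + 1 : ℕ) : ℝ) + 1)) ≤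
      ∑ m ∈ Finset.range N, (10 / 27 : ℝ) ^ (m + 1) := by
    apply Finset.sum_le_sum
    intro m _
    exact term_le (N + 1) (m + 1) hn (by omega) l hl
  have h2 : ((N + 1 - 1).choose 0 : ℝ) *
      (Real.exp (-(Real.sqrt (((0 : ℕ) : ℝ) + 1) * l)) / Real.sqrt (((0 : ℕ) : ℝ) + 1)) ≤
        (10 / 27 : ℝ) ^ 2 := by
    have h3 : Real.sqrt (((0 : ℕ) : ℝ) + 1) = 1 := by norm_num
    rw [h3, Nat.choose_zero_right, one_mul, div_one, Nat.cast_one, one_mul]
    refine le_trans ?_ (exp_neg_nat 2)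
    apply Real.exp_le_exp.2
    have h4 : (1 : ℝ) ≤ Real.sqrt ((N + 1 : ℕ) : ℝ) := by
      rw [Real.one_le_sqrt]
      exact_mod_cast (by omega : 1 ≤ N + 1)
    push_cast at h4 ⊢
    push_cast at hl
    linarith
  have h3 := geom N
  have h4 : (0 : ℝ) < (10 / 27) ^ N := by positivity
  rw [h3] at h1
  refine lt_of_le_of_lt (add_le_add h1 h2) ?_
  nlinarith

end Pool.Agent.Helper79.CU
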