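import Pool.Agent.Helper70.MM.Goals3

/-!
# A lower bound for the slope at the vertices
-/

set_option autoImplicit false

namespace Pool.Agent.Helper79.CU

open Pool.Agent.Helper70.MM Nat

lemma choose_step (k : ℕ) (hk : 4 ≤ k) :
    (17 / 2 : ℝ) * ((4 * k).choose k : ℝ) ≤ ((4 * (k + 1)).choose (k + 1) : ℝ) := by
  have h1 := Nat.choose_mul_factorial_mul_factorial (n := 4 * k) (k := k) (by omega)
  have h2 := Nat.choose_mul_factorial_mul_factorial (n := 4 * (k + 1)) (k := k + 1) (by omega)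
  have e1 : 4 * k - k = 3 * k := by omega
  have e2 : 4 * (k + 1) - (k + 1) = 3 * k + 1 + 1 + 1 := by omega
  have e3 : 4 * (k + 1) = 4 * k + 1 + 1 + 1 + 1 := by omega
  rw [e1] at h1
  rw [e2] at h2
  have h3 : (4 * (k + 1))! = (4 * k + 1 + 1 + 1 + 1) * ((4 * k + 1 + 1 + 1) * ((4 * k + 1 + 1) *
      ((4 * k + 1) * (4 * k)!))) := by
    rw [e3, Nat.factorial_succ, Nat.factorial_succ, Nat.factorial_succ, Nat.factorial_succ]
  have h4 : (3 * k + 1 + 1 + 1)! = (3 * k + 1 + 1 + 1) * ((3 * k + 1 + 1) *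
      ((3 * k + 1) * (3 * k)!)) := by
    rw [Nat.factorial_succ, Nat.factorial_succ, Nat.factorial_succ]
  rw [h3, h4, Nat.factorial_succ, ← h1] at h2
  have hF : (0 : ℝ) < (k ! : ℝ) * ((3 * k)! : ℝ) := by
    have := Nat.factorial_pos k
    have := Nat.factorial_pos (3 * k)
    positivity
  have h5 : ((4 * (k + 1)).choose (k + 1) : ℝ) * (((k : ℝ) + 1) * (3 * k + 1 + 1 + 1) *
      (3 * k + 1 + 1) * (3 * k + 1)) * ((k ! : ℝ) * ((3 * k)! : ℝ)) =
      ((4 * k).choose k : ℝ) * ((4 * k + 1 + 1 + 1 + 1) * (4 * k + 1 + 1 + 1) * (4 * k + 1 + 1) *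
      (4 * k + 1)) * ((k ! : ℝ) * ((3 * k)! : ℝ)) := by
    have := congrArg (fun x : ℕ => (x : ℝ)) h2
    push_cast at this
    linarith
  have h6 := mul_right_cancel₀ hF.ne' h5
  have hk' : (4 : ℝ) ≤ k := by exact_mod_cast hk
  have hC : (0 : ℝ) ≤ ((4 * k).choose k : ℝ) := Nat.cast_nonneg _
  have hP : (0 : ℝ) < ((k : ℝ) + 1) * (3 * k + 1 + 1 + 1) * (3 * k + 1 + 1) * (3 * k + 1) := by
    positivity
  have hQ : (17 / 2 : ℝ) * (((k : ℝ) + 1) * (3 * k + 1 + 1 + 1) * (3 * k + 1 + 1) *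
      (3 * k + 1)) ≤ (4 * k + 1 + 1 + 1 + 1) * (4 * k + 1 + 1 + 1) * (4 * k + 1 + 1) *
      (4 * k + 1) := by
    obtain ⟨y, hy⟩ : ∃ y : ℝ, (k : ℝ) = 4 + y := ⟨k - 4, by ring⟩
    have hy0 : 0 ≤ y := by linarith
    rw [hy]
    nlinarith [pow_nonneg hy0 2, pow_nonneg hy0 3, pow_nonneg hy0 4]
  have h7 : (17 / 2 : ℝ) * ((4 * k).choose k : ℝ) * (((k : ℝ) + 1) * (3 * k + 1 + 1 + 1) *
      (3 * k + 1 + 1) * (3 * k + 1)) ≤ ((4 * (k + 1)).choose (k + 1) : ℝ) *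
      (((k : ℝ) + 1) * (3 * k + 1 + 1 + 1) * (3 * k + 1 + 1) * (3 * k + 1)) := by
    rw [h6]
    calc (17 / 2 : ℝ) * ((4 * k).choose k : ℝ) * (((k : ℝ) + 1) * (3 * k + 1 + 1 + 1) *
          (3 * k + 1 + 1) * (3 * k + 1)) = ((4 * k).choose k : ℝ) * ((17 / 2 : ℝ) *
          (((k : ℝ) + 1) * (3 * k + 1 + 1 + 1) * (3 * k + 1 + 1) * (3 * k + 1))) := by ring
      _ ≤ _ := mul_le_mul_of_nonneg_left hQ hC
  exact le_of_mul_le_mul_right h7 hP

lemma choose_ge (k : ℕ) (hk : 4 ≤ k) :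
    (1 / 3 : ℝ) * (17 / 2) ^ k ≤ ((4 * k).choose k : ℝ) := by
  induction k, hk using Nat.le_induction with
  | base =>
    have : (4 * 4).choose 4 = 1820 := by decide
    rw [this]
    norm_num
  | succ k hk ih =>
    have := choose_step k hk
    calc (1 / 3 : ℝ) * (17 / 2) ^ (k + 1) = 17 / 2 * (1 / 3 * (17 / 2) ^ k) := by ring
      _ ≤ 17 / 2 * ((4 * k).choose k : ℝ) := by linarith
      _ ≤ _ := this

lemma exp_le : Real.exp (2.13 : ℝ) ≤ 17 / 2 := by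
  have h1 : Real.exp 1 < 2.7182818286 := Real.exp_one_lt_d9
  have h2 : (0.87 : ℝ) ≤ Real.exp (-0.13) := by
    have := Real.add_one_le_exp (-0.13 : ℝ)
    linarith
  have h3 : Real.exp (2.13 : ℝ) * Real.exp (-0.13) = Real.exp 1 * Real.exp 1 := by
    rw [← Real.exp_add, ← Real.exp_add]; norm_num
  have h4 := Real.exp_pos 1
  have h5 := Real.exp_pos (2.13 : ℝ)
  by_contra h
  push Not at h
  nlinarith

lemma num_le (x : ℝ) (hx : 249 ≤ x) :
    3 * Real.sqrt (x + 1) * Real.exp (2.1 * x + 2.37) ≤ Real.exp (2.13 * x) := by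
  have h1 : (2.7 : ℝ) ^ 5 ≤ Real.exp 5 := by
    have h2 : (2.7182818283 : ℝ) < Real.exp 1 := Real.exp_one_gt_d9
    have h3 : Real.exp 5 = Real.exp 1 ^ 5 := by
      rw [← Real.exp_nat_mul]; norm_num
    rw [h3]
    exact pow_le_pow_left₀ (by norm_num) (by linarith) 5
  have h2 : 0.03 * x - 6.37 ≤ Real.exp (0.03 * x - 7.37) := by
    have := Real.add_one_le_exp (0.03 * x - 7.37)
    linarith
  have h3 : Real.sqrt (x + 1) ≤ (x + 257) / 32 := by
    rw [Real.sqrt_le_left (by linarith)]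
    nlinarith [sq_nonneg (x + 1 - 256)]
  have h4 : 3 * Real.sqrt (x + 1) ≤ Real.exp (0.03 * x - 2.37) := by
    have h5 : Real.exp (0.03 * x - 2.37) = Real.exp 5 * Real.exp (0.03 * x - 7.37) := by
      rw [← Real.exp_add]; congr 1; ring
    rw [h5]
    calc 3 * Real.sqrt (x + 1) ≤ (2.7 : ℝ) ^ 5 * (0.03 * x - 6.37) := by
          norm_num
          linarith
      _ ≤ Real.exp 5 * Real.exp (0.03 * x - 7.37) :=
          mul_le_mul h1 h2 (by linarith) (Real.exp_pos _).le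
  calc 3 * Real.sqrt (x + 1) * Real.exp (2.1 * x + 2.37)
      ≤ Real.exp (0.03 * x - 2.37) * Real.exp (2.1 * x + 2.37) :=
        mul_le_mul_of_nonneg_right h4 (Real.exp_pos _).le
    _ = Real.exp (2.13 * x) := by rw [← Real.exp_add]; congr 1; ring

/-- **LOWER.** -/
theorem lower (n : ℕ) (l : ℝ) (hn : 1000 ≤ n) (hl : 0 < l) (h : l ^ 2 ≤ 1.1025 * (n + 1)) :
    1 ≤ sl n l := by
  obtain ⟨k, hk1, hk2⟩ : ∃ k : ℕ, 4 * k ≤ n - 1 ∧ n ≤ 4 * k + 4 := ⟨(n - 1) / 4, by omega, by omega⟩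
  have hk : 249 ≤ k := by omega
  have hk' : (249 : ℝ) ≤ k := by exact_mod_cast hk
  have hn' : (n : ℝ) ≤ 4 * k + 4 := by exact_mod_cast hk2
  have hsx : 0 < Real.sqrt ((k : ℝ) + 1) := Real.sqrt_pos.2 (by linarith)
  have hxx : Real.sqrt ((k : ℝ) + 1) ^ 2 = k + 1 := Real.sq_sqrt (by linarith)
  have h1 : Real.sqrt ((k : ℝ) + 1) * l ≤ 2.1 * k + 2.37 := by
    apply le_of_sq_le_sq _ (by linarith)
    rw [mul_pow, hxx]
    have : l ^ 2 ≤ 1.1025 * (4 * k + 5) := by nlinarith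
    nlinarith
  have h2 : ((n - 1).choose k : ℝ) *
      (Real.exp (-(Real.sqrt ((k : ℝ) + 1) * l)) / Real.sqrt ((k : ℝ) + 1)) ≤ sl n l := by
    unfold sl
    refine Finset.single_le_sum (f := fun m : ℕ => ((n - 1).choose m : ℝ) *
      (Real.exp (-(Real.sqrt ((m : ℝ) + 1) * l)) / Real.sqrt ((m : ℝ) + 1))) ?_ ?_
    · intro m _
      positivity
    · rw [Finset.mem_range]; omega
  refine le_trans ?_ h2
  have h3 : (1 / 3 : ℝ) * (17 / 2) ^ k ≤ ((n - 1).choose k : ℝ) := by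
    refine (choose_ge k (by omega)).trans ?_
    exact_mod_cast Nat.choose_le_choose k hk1
  have h4 : Real.exp (2.13 * (k : ℝ)) ≤ (17 / 2) ^ k := by
    rw [mul_comm, Real.exp_nat_mul]
    exact pow_le_pow_left₀ (Real.exp_pos _).le exp_le k
  have h5 := num_le k hk'
  have h6 : 3 * Real.sqrt ((k : ℝ) + 1) * Real.exp (Real.sqrt ((k : ℝ) + 1) * l) ≤
      (17 / 2) ^ k := by
    refine le_trans ?_ (h5.trans h4)
    exact mul_le_mul_of_nonneg_left (Real.exp_le_exp.2 h1) (by positivity)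
  have h7 : Real.exp (-(Real.sqrt ((k : ℝ) + 1) * l)) * Real.exp (Real.sqrt ((k : ℝ) + 1) * l) =
      1 := by rw [← Real.exp_add]; simp
  rw [← mul_div_assoc, le_div_iff₀ hsx, one_mul]
  have h8 : Real.sqrt ((k : ℝ) + 1) * Real.exp (Real.sqrt ((k : ℝ) + 1) * l) ≤
      ((n - 1).choose k : ℝ) := by linarith
  calc Real.sqrt ((k : ℝ) + 1) = Real.sqrt ((k : ℝ) + 1) *
        Real.exp (Real.sqrt ((k : ℝ) + 1) * l) * Real.exp (-(Real.sqrt ((k : ℝ) + 1) * l)) := by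
        rw [mul_assoc, mul_comm (Real.exp _) (Real.exp _), h7, mul_one]
    _ ≤ _ := mul_le_mul_of_nonneg_right h8 (Real.exp_pos _).le

end Pool.Agent.Helper79.CU
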