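import Mathlib

/-!
# The numerical end of the edge estimate
-/

set_option autoImplicit false

namespace Pool.Agent.Helper79.CU

lemma third_le (n : ℕ) (hn : 37 ≤ n) : (n : ℝ) / 3 ≤ Real.exp (n / 14) := by
  induction n, hn using Nat.le_induction with
  | base =>
    have h1 : (2.7182818283 : ℝ) < Real.exp 1 := Real.exp_one_gt_d9
    -- `exp (37/14) ≥ exp (5/2) * (1 + 1/7)`
    have h2 : Real.exp ((37 : ℕ) / 14 : ℝ) = Real.exp 1 * Real.exp 1 * Real.exp (9 / 14) := by
      rw [← Real.exp_add, ← Real.exp_add]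
      norm_num
    have h3 : (1 : ℝ) + 9 / 14 + (9 / 14) ^ 2 / 2 ≤ Real.exp (9 / 14) := by
      have := Real.quadratic_le_exp_of_nonneg (x := (9 / 14 : ℝ)) (by norm_num)
      linarith
    rw [h2]
    have h4 : (2.7 : ℝ) * 2.7 ≤ Real.exp 1 * Real.exp 1 := by nlinarith
    calc ((37 : ℕ) : ℝ) / 3 ≤ (2.7 : ℝ) * 2.7 * (1 + 9 / 14 + (9 / 14) ^ 2 / 2) := by norm_num
      _ ≤ Real.exp 1 * Real.exp 1 * Real.exp (9 / 14) :=
        mul_le_mul h4 h3 (by norm_num) (by positivity)
  | succ n hn ih =>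
    have h1 : Real.exp (((n + 1 : ℕ) : ℝ) / 14) = Real.exp (n / 14) * Real.exp (1 / 14) := by
      rw [← Real.exp_add]
      congr 1
      push_cast
      ring
    have h2 : (1 : ℝ) + 1 / 14 ≤ Real.exp (1 / 14) := by
      have := Real.add_one_le_exp (1 / 14 : ℝ)
      linarith
    have h3 : (37 : ℝ) ≤ n := by exact_mod_cast hn
    rw [h1]
    push_cast
    calc ((n : ℝ) + 1) / 3 ≤ (n : ℝ) / 3 * (1 + 1 / 14) := by nlinarith
      _ ≤ Real.exp (n / 14) * Real.exp (1 / 14) :=
        mul_le_mul ih h2 (by norm_num) (Real.exp_pos _).le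

/-- The numerical end. -/
theorem num (n : ℕ) (hn : 37 ≤ n) :
    (n : ℝ) / 3 * Real.exp (n / 18 + n / 6 + (n - 1) / 7 + 4) ≤ 2 ^ (n - 2) := by
  have h1 := third_le n hn
  have h3 : (37 : ℝ) ≤ n := by exact_mod_cast hn
  have h2 : (2 : ℝ) ^ (n - 2) = Real.exp (((n : ℝ) - 2) * Real.log 2) := by
    have h4 : ((n - 2 : ℕ) : ℝ) = (n : ℝ) - 2 := by
      rw [Nat.cast_sub (by omega)]; norm_num
    rw [← h4, mul_comm, Real.exp_mul, Real.exp_log (by norm_num), Real.rpow_natCast]
  rw [h2]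
  calc (n : ℝ) / 3 * Real.exp (n / 18 + n / 6 + (n - 1) / 7 + 4)
      ≤ Real.exp (n / 14) * Real.exp (n / 18 + n / 6 + (n - 1) / 7 + 4) :=
        mul_le_mul_of_nonneg_right h1 (Real.exp_pos _).le
    _ = Real.exp (n / 14 + (n / 18 + n / 6 + (n - 1) / 7 + 4)) := by rw [← Real.exp_add]
    _ ≤ Real.exp (((n : ℝ) - 2) * Real.log 2) := by
        apply Real.exp_le_exp.2
        have := Real.log_two_gt_d9
        nlinarith

/-- Chernoff: the small binomials. -/
theorem chern (N : ℕ) (y : ℝ) (s : Finset ℕ) (hs : ∀ j ∈ s, j ≤ N ∧ (j : ℝ) < y + 2) :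
    ∑ j ∈ s, (N.choose j : ℝ) ≤ Real.exp (2 * y + 4 + N / 7) := by
  have hq : Real.exp (-2) ≤ 1 / 7 := by
    have h1 : (2.7182818283 : ℝ) < Real.exp 1 := Real.exp_one_gt_d9
    have h2 : Real.exp (-2) = (Real.exp 1 * Real.exp 1)⁻¹ := by
      rw [← Real.exp_add, ← Real.exp_neg]; norm_num
    rw [h2, inv_le_comm₀ (by positivity) (by norm_num)]
    norm_num at h1 ⊢
    nlinarith
  have h1 : ∀ j ∈ s, (N.choose j : ℝ) ≤
      Real.exp (2 * y + 4) * ((Real.exp (-2)) ^ j * (N.choose j : ℝ)) := by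
    intro j hj
    have h2 : (1 : ℝ) ≤ Real.exp (2 * y + 4) * (Real.exp (-2)) ^ j := by
      rw [← Real.exp_nat_mul, ← Real.exp_add]
      apply Real.one_le_exp
      have := (hs j hj).2
      linarith
    have h3 : (0 : ℝ) ≤ (N.choose j : ℝ) := Nat.cast_nonneg _
    nlinarith
  calc ∑ j ∈ s, (N.choose j : ℝ)
      ≤ ∑ j ∈ s, Real.exp (2 * y + 4) * ((Real.exp (-2)) ^ j * (N.choose j : ℝ)) :=
        Finset.sum_le_sum h1
    _ ≤ ∑ j ∈ Finset.range (N + 1),
          Real.exp (2 * y + 4) * ((Real.exp (-2)) ^ j * (N.choose j : ℝ)) := by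
        apply Finset.sum_le_sum_of_subset_of_nonneg
        · intro j hj
          rw [Finset.mem_range]
          have := (hs j hj).1
          omega
        · intro j _ _
          positivity
    _ = Real.exp (2 * y + 4) * (Real.exp (-2) + 1) ^ N := by
        rw [← Finset.mul_sum, add_pow]
        congr 1
        apply Finset.sum_congr rfl
        intro j _
        rw [one_pow, mul_one]
    _ ≤ Real.exp (2 * y + 4) * Real.exp (N / 7) := by
        apply mul_le_mul_of_nonneg_left _ (Real.exp_pos _).le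
        have h4 : Real.exp (-2) + 1 ≤ Real.exp (1 / 7) := by
          have := Real.add_one_le_exp (1 / 7 : ℝ)
          linarith
        calc (Real.exp (-2) + 1) ^ N ≤ (Real.exp (1 / 7)) ^ N :=
              pow_le_pow_left₀ (by positivity) h4 N
          _ = Real.exp (N / 7) := by
              rw [← Real.exp_nat_mul]; congr 1; ring
    _ = Real.exp (2 * y + 4 + N / 7) := by rw [← Real.exp_add]

end Pool.Agent.Helper79.CU
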